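import Mathlib

set_option autoImplicit false

/-!
# Taylor bounds for sine and cosine, all orders
-/

namespace Pool.Agent.Helper37.Pq

open Finset

/-- Taylor polynomial of the cosine. -/
noncomputable def CT (n : ℕ) (x : ℝ) : ℝ :=
  ∑ k ∈ range n, (-1) ^ k * x ^ (2 * k) / ((2 * k).factorial : ℝ)

/-- Taylor polynomial of the sine. -/
noncomputable def ST (n : ℕ) (x : ℝ) : ℝ :=
  ∑ k ∈ range n, (-1) ^ k * x ^ (2 * k + 1) / ((2 * k + 1).factorial : ℝ)

theorem hasDerivAt_ST (n : ℕ) (x : ℝ) : HasDerivAt (ST n) (CT n x) x := by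
  have h : HasDerivAt (fun x : ℝ => ∑ k ∈ range n, (-1) ^ k * x ^ (2 * k + 1) /
      ((2 * k + 1).factorial : ℝ)) (∑ k ∈ range n, (-1) ^ k * x ^ (2 * k) /
      ((2 * k).factorial : ℝ)) x := by
    refine HasDerivAt.fun_sum fun k _ => ?_
    have h1 := ((hasDerivAt_pow (2 * k + 1) x).const_mul ((-1 : ℝ) ^ k)).div_const
      ((2 * k + 1).factorial : ℝ)
    refine h1.congr_deriv ?_
    rw [Nat.factorial_succ, Nat.cast_mul, Nat.add_sub_cancel]
    have h2 : ((2 * k).factorial : ℝ) ≠ 0 := Nat.cast_ne_zero.2 (Nat.factorial_ne_zero _)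
    have h3 : ((2 * k + 1 : ℕ) : ℝ) ≠ 0 := Nat.cast_ne_zero.2 (by omega)
    field_simp
  exact h

theorem hasDerivAt_CT (n : ℕ) (x : ℝ) : HasDerivAt (CT (n + 1)) (-ST n x) x := by
  have h : HasDerivAt (fun x : ℝ => ∑ k ∈ range (n + 1), (-1) ^ k * x ^ (2 * k) /
      ((2 * k).factorial : ℝ)) (-∑ k ∈ range n, (-1) ^ k * x ^ (2 * k + 1) /
      ((2 * k + 1).factorial : ℝ)) x := by
    simp only [sum_range_succ']
    rw [← add_zero (-∑ k ∈ range n, (-1) ^ k * x ^ (2 * k + 1) / ((2 * k + 1).factorial : ℝ))]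
    refine HasDerivAt.add ?_ ?_
    · rw [← sum_neg_distrib]
      refine HasDerivAt.fun_sum fun k _ => ?_
      have h1 := ((hasDerivAt_pow (2 * (k + 1)) x).const_mul ((-1 : ℝ) ^ (k + 1))).div_const
        ((2 * (k + 1)).factorial : ℝ)
      refine h1.congr_deriv ?_
      have e1 : 2 * (k + 1) = (2 * k + 1) + 1 := by ring
      rw [e1, Nat.factorial_succ (2 * k + 1), Nat.cast_mul, Nat.add_sub_cancel]
      have h2 : ((2 * k + 1).factorial : ℝ) ≠ 0 := Nat.cast_ne_zero.2 (Nat.factorial_ne_zero _)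
      have h3 : ((2 * k + 1 + 1 : ℕ) : ℝ) ≠ 0 := Nat.cast_ne_zero.2 (by omega)
      field_simp
      ring
    · simpa using hasDerivAt_const x (1 : ℝ)
  exact h

theorem CT_zero (n : ℕ) : CT (n + 1) 0 = 1 := by
  unfold CT
  rw [sum_range_succ']
  simp

theorem ST_zero (n : ℕ) : ST n 0 = 0 := by
  unfold ST
  exact sum_eq_zero fun k _ => by simp

theorem nonneg_of_deriv {f f' : ℝ → ℝ} (hf : ∀ x, HasDerivAt f (f' x) x) (h0 : f 0 = 0)
    (hf' : ∀ x, 0 ≤ x → 0 ≤ f' x) : ∀ x, 0 ≤ x → 0 ≤ f x := by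
  intro x hx
  have hmono : MonotoneOn f (Set.Ici 0) := by
    refine monotoneOn_of_deriv_nonneg (convex_Ici 0)
      (fun y _ => (hf y).continuousAt.continuousWithinAt)
      (fun y _ => (hf y).differentiableAt.differentiableWithinAt) ?_
    intro y hy
    rw [interior_Ici] at hy
    rw [(hf y).deriv]
    exact hf' y (le_of_lt hy)
  have := hmono (Set.mem_Ici.2 le_rfl) (Set.mem_Ici.2 hx) hx
  rwa [h0] at this

theorem taylor_bounds (n : ℕ) : (∀ x : ℝ, 0 ≤ x → 0 ≤ (-1) ^ n * (CT (n + 1) x - Real.cos x)) ∧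
    ∀ x : ℝ, 0 ≤ x → 0 ≤ (-1) ^ n * (ST (n + 1) x - Real.sin x) := by
  have key : ∀ m : ℕ, (∀ x : ℝ, 0 ≤ x → 0 ≤ (-1) ^ m * (CT (m + 1) x - Real.cos x)) →
      ∀ x : ℝ, 0 ≤ x → 0 ≤ (-1) ^ m * (ST (m + 1) x - Real.sin x) := by
    intro m hm
    refine nonneg_of_deriv (f := fun x => (-1) ^ m * (ST (m + 1) x - Real.sin x))
      (fun x => ((hasDerivAt_ST (m + 1) x).sub (Real.hasDerivAt_sin x)).const_mul _) ?_ hm
    simp [ST_zero]
  induction n with
  | zero =>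
    have h0 : ∀ x : ℝ, 0 ≤ x → 0 ≤ (-1) ^ 0 * (CT (0 + 1) x - Real.cos x) := by
      intro x _
      have h1 : CT (0 + 1) x = 1 := by simp [CT]
      rw [h1]
      have := Real.cos_le_one x
      simp only [pow_zero, one_mul]
      linarith
    exact ⟨h0, key 0 h0⟩
  | succ n ih =>
    have h0 : ∀ x : ℝ, 0 ≤ x → 0 ≤ (-1) ^ (n + 1) * (CT (n + 1 + 1) x - Real.cos x) := by
      refine nonneg_of_deriv (f := fun x => (-1) ^ (n + 1) * (CT (n + 1 + 1) x - Real.cos x))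
        (f' := fun x => (-1) ^ (n + 1) * (-ST (n + 1) x - -Real.sin x))
        (fun x => ((hasDerivAt_CT (n + 1) x).sub (Real.hasDerivAt_cos x)).const_mul _) ?_ ?_
      · simp [CT_zero]
      · intro x hx
        have := ih.2 x hx
        rw [pow_succ]
        linarith
    exact ⟨h0, key (n + 1) h0⟩

end Pool.Agent.Helper37.Pq
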