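import Pool.Agent.Helper53.Pq.Goals
import Pool.Agent.Helper37.Pq.Taylor

set_option autoImplicit false

/-!
# Packet Pq-E2
-/

namespace Pool.Agent.Helper37.Pq

open MeasureTheory Set Pool.Agent.Helper53.Pq

/-- upper polynomial for `sin² t / t²` -/
noncomputable def shi (t : ℝ) : ℝ :=
  1 - 1 / 3 * t ^ 2 + 2 / 45 * t ^ 4 - 1 / 315 * t ^ 6 + 2 / 14175 * t ^ 8 - 2 / 467775 * t ^ 10 +
    4 / 42567525 * t ^ 12

noncomputable def slo (t : ℝ) : ℝ := shi t - 1 / 638512875 * t ^ 14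

theorem sin_sq_le (t : ℝ) (ht : 0 < t) : Real.sin t ^ 2 / t ^ 2 ≤ shi t := by
  have h1 := (taylor_bounds 7).1 (2 * t) (by positivity)
  have h2 : Real.sin t ^ 2 = (1 - Real.cos (2 * t)) / 2 := by
    rw [Real.cos_two_mul]
    have := Real.sin_sq_add_cos_sq t
    linarith
  have h3 : CT (7 + 1) (2 * t) = 1 - 2 * t ^ 2 * shi t := by
    simp only [CT, Finset.sum_range_succ, Finset.sum_range_zero, shi]
    norm_num [Nat.factorial]
    ring
  rw [h3] at h1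
  rw [div_le_iff₀ (by positivity), h2]
  norm_num at h1
  linarith

theorem le_sin_sq (t : ℝ) (ht : 0 < t) : slo t ≤ Real.sin t ^ 2 / t ^ 2 := by
  have h1 := (taylor_bounds 8).1 (2 * t) (by positivity)
  have h2 : Real.sin t ^ 2 = (1 - Real.cos (2 * t)) / 2 := by
    rw [Real.cos_two_mul]
    have := Real.sin_sq_add_cos_sq t
    linarith
  have h3 : CT (8 + 1) (2 * t) = 1 - 2 * t ^ 2 * slo t := by
    simp only [CT, Finset.sum_range_succ, Finset.sum_range_zero, shi, slo]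
    norm_num [Nat.factorial]
    ring
  rw [h3] at h1
  rw [le_div_iff₀ (by positivity), h2]
  norm_num at h1
  linarith

/-- The lower integrand. -/
noncomputable def Lw (v a c t : ℝ) : ℝ :=
  slo t + (v * Real.cos t ^ 2 - a * (t ^ 2 * Real.cos t ^ 2) -
    c * (t ^ 2 * Real.sin (2 * t)) - (0.001 * t ^ 2 + c * t ^ 3) ^ 2)

/-- The upper integrand. -/
noncomputable def Up (v c t : ℝ) : ℝ :=
  shi t + (v * Real.cos t ^ 2 - v ^ 2 / 4 * (t ^ 2 * Real.cos t ^ 2) +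
    0.001 * (t * Real.sin (2 * t)) + c * (t ^ 2 * Real.sin (2 * t)))

theorem pointwise {s c A B z v t : ℝ} (hs : 0 ≤ s) (hc : 0 ≤ c) (hs1 : s ≤ 1) (ht : 0 < t)
    (ht2 : t ^ 2 ≤ 2.4675) (hv : 0.047 ≤ v) (hv2 : v ≤ 0.1108) (hz : 0 ≤ z)
    (hz2 : z ≤ 2.6 * v ^ 2 + 0.0035)
    (hA1 : 1 - v * t ^ 2 / 2 ≤ A) (hA2 : A ≤ 1 - v * t ^ 2 / 2 + z * t ^ 4 / 24) (hA3 : |A| ≤ 1)
    (hB1 : -(z * t ^ 4 / 36) ≤ B) (hB2 : B ≤ 0.001 * t ^ 3 + z * t ^ 4 / 36) :
    (c * A - s * B) ^ 2 ≤ c ^ 2 * (1 - v * t ^ 2 + (v ^ 2 / 4 + z / 12) * t ^ 4) +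
      2 * s * c * (z * t ^ 4 / 36) + (0.001 * t ^ 3 + z * t ^ 4 / 36) ^ 2 ∧
    c ^ 2 * (1 - v * t ^ 2 + v ^ 2 / 4 * t ^ 4) -
      2 * s * c * (0.001 * t ^ 3 + z * t ^ 4 / 36) ≤ (c * A - s * B) ^ 2 := by
  have hA3' := (abs_le.1 hA3).2
  have hlow : 0 < 1 - v * t ^ 2 / 2 := by nlinarith
  have hA0 : 0 ≤ A := hlow.le.trans hA1
  have ht3 : 0 ≤ t ^ 3 := by positivity
  have ht4 : 0 ≤ t ^ 4 := by positivity
  have hβ : 0 ≤ z * t ^ 4 / 36 := by positivity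
  have hsc : 0 ≤ s * c := mul_nonneg hs hc
  constructor
  · -- upper bound
    have h1 : A ^ 2 ≤ 1 - v * t ^ 2 + (v ^ 2 / 4 + z / 12) * t ^ 4 := by
      have h2 : A ^ 2 ≤ (1 - v * t ^ 2 / 2 + z * t ^ 4 / 24) ^ 2 := by
        exact pow_le_pow_left₀ hA0 hA2 2
      refine h2.trans ?_
      have h3 : z * t ^ 2 ≤ 24 * v := by
        have : z * t ^ 2 ≤ (2.6 * v ^ 2 + 0.0035) * 2.4675 :=
          mul_le_mul hz2 ht2 (by positivity) (by positivity)
        nlinarith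
      have h4 : 0 ≤ z * t ^ 6 / 576 * (24 * v - z * t ^ 2) :=
        mul_nonneg (by positivity) (by linarith)
      nlinarith
    have h5 : -(A * B) ≤ z * t ^ 4 / 36 := by
      rcases le_total 0 B with hB | hB
      · have := mul_nonneg hA0 hB
        linarith
      · have : A * (-B) ≤ 1 * (z * t ^ 4 / 36) :=
          mul_le_mul hA3' (by linarith) (by linarith) (by norm_num)
        linarith
    have h6 : B ^ 2 ≤ (0.001 * t ^ 3 + z * t ^ 4 / 36) ^ 2 := by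
      refine sq_le_sq' ?_ hB2
      have : (0 : ℝ) ≤ 0.001 * t ^ 3 := by positivity
      linarith
    have h7 : s ^ 2 ≤ 1 := by nlinarith
    have h8 : c ^ 2 * A ^ 2 ≤ c ^ 2 * (1 - v * t ^ 2 + (v ^ 2 / 4 + z / 12) * t ^ 4) :=
      mul_le_mul_of_nonneg_left h1 (sq_nonneg c)
    have h9 : (2 * (s * c)) * (-(A * B)) ≤ (2 * (s * c)) * (z * t ^ 4 / 36) :=
      mul_le_mul_of_nonneg_left h5 (by positivity)
    have h10 : s ^ 2 * B ^ 2 ≤ 1 * (0.001 * t ^ 3 + z * t ^ 4 / 36) ^ 2 :=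
      mul_le_mul h7 h6 (sq_nonneg _) (by norm_num)
    nlinarith
  · have h1 : 1 - v * t ^ 2 + v ^ 2 / 4 * t ^ 4 ≤ A ^ 2 := by
      have h2 : (1 - v * t ^ 2 / 2) ^ 2 ≤ A ^ 2 := pow_le_pow_left₀ hlow.le hA1 2
      nlinarith
    have h5 : A * B ≤ 0.001 * t ^ 3 + z * t ^ 4 / 36 := by
      rcases le_total 0 B with hB | hB
      · have : A * B ≤ 1 * (0.001 * t ^ 3 + z * t ^ 4 / 36) :=
          mul_le_mul hA3' hB2 hB (by norm_num)
        linarith
      · have := mul_nonneg hA0 (neg_nonneg.2 hB)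
        have : (0 : ℝ) ≤ 0.001 * t ^ 3 := by positivity
        linarith
    have h8 : c ^ 2 * (1 - v * t ^ 2 + v ^ 2 / 4 * t ^ 4) ≤ c ^ 2 * A ^ 2 :=
      mul_le_mul_of_nonneg_left h1 (sq_nonneg c)
    have h9 : (2 * (s * c)) * (A * B) ≤ (2 * (s * c)) * (0.001 * t ^ 3 + z * t ^ 4 / 36) :=
      mul_le_mul_of_nonneg_left h5 (by positivity)
    have h10 : 0 ≤ s ^ 2 * B ^ 2 := by positivity
    nlinarith

/-! ### Integrals -/

noncomputable def Fhi (t : ℝ) : ℝ :=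
  t - 1 / 9 * t ^ 3 + 2 / 225 * t ^ 5 - 1 / 2205 * t ^ 7 + 2 / 127575 * t ^ 9 -
    2 / 5145525 * t ^ 11 + 4 / 553377825 * t ^ 13

theorem hasDerivAt_Fhi (t : ℝ) : HasDerivAt Fhi (shi t) t := by
  have h1 := hasDerivAt_id t
  have h3 := (hasDerivAt_pow 3 t).const_mul (1 / 9 : ℝ)
  have h5 := (hasDerivAt_pow 5 t).const_mul (2 / 225 : ℝ)
  have h7 := (hasDerivAt_pow 7 t).const_mul (1 / 2205 : ℝ)
  have h9 := (hasDerivAt_pow 9 t).const_mul (2 / 127575 : ℝ)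
  have h11 := (hasDerivAt_pow 11 t).const_mul (2 / 5145525 : ℝ)
  have h13 := (hasDerivAt_pow 13 t).const_mul (4 / 553377825 : ℝ)
  refine ((((((h1.sub h3).add h5).sub h7).add h9).sub h11).add h13).congr_deriv ?_
  unfold shi
  norm_num
  ring

theorem hasDerivAt_cs (t : ℝ) : HasDerivAt (fun t => t / 2 + Real.sin (2 * t) / 4)
    (Real.cos t ^ 2) t := by
  have h2 : HasDerivAt (fun t : ℝ => 2 * t) 2 t := by
    simpa using (hasDerivAt_id t).const_mul (2 : ℝ)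
  refine (((hasDerivAt_id t).div_const 2).add (h2.sin.div_const 4)).congr_deriv ?_
  rw [Real.cos_two_mul]
  ring

theorem hasDerivAt_t2c (t : ℝ) : HasDerivAt
    (fun t => t ^ 3 / 6 + t ^ 2 * Real.sin (2 * t) / 4 + t * Real.cos (2 * t) / 4 -
      Real.sin (2 * t) / 8) (t ^ 2 * Real.cos t ^ 2) t := by
  have h2 : HasDerivAt (fun t : ℝ => 2 * t) 2 t := by
    simpa using (hasDerivAt_id t).const_mul (2 : ℝ)
  refine (((((hasDerivAt_pow 3 t).div_const 6).add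
    (((hasDerivAt_pow 2 t).mul h2.sin).div_const 4)).add
    (((hasDerivAt_id t).mul h2.cos).div_const 4)).sub (h2.sin.div_const 8)).congr_deriv ?_
  have := Real.cos_two_mul t
  simp only [id]
  rw [this]
  norm_num
  ring

theorem hasDerivAt_ts (t : ℝ) : HasDerivAt
    (fun t => -(t * Real.cos (2 * t)) / 2 + Real.sin (2 * t) / 4) (t * Real.sin (2 * t)) t := by
  have h2 : HasDerivAt (fun t : ℝ => 2 * t) 2 t := by
    simpa using (hasDerivAt_id t).const_mul (2 : ℝ)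
  refine ((((hasDerivAt_id t).mul h2.cos).neg.div_const 2).add
    (h2.sin.div_const 4)).congr_deriv ?_
  simp only [id]
  ring

theorem hasDerivAt_t2s (t : ℝ) : HasDerivAt
    (fun t => -(t ^ 2 * Real.cos (2 * t)) / 2 + t * Real.sin (2 * t) / 2 + Real.cos (2 * t) / 4)
    (t ^ 2 * Real.sin (2 * t)) t := by
  have h2 : HasDerivAt (fun t : ℝ => 2 * t) 2 t := by
    simpa using (hasDerivAt_id t).const_mul (2 : ℝ)
  refine (((((hasDerivAt_pow 2 t).mul h2.cos).neg.div_const 2).add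
    (((hasDerivAt_id t).mul h2.sin).div_const 2)).add (h2.cos.div_const 4)).congr_deriv ?_
  simp only [id]
  norm_num
  ring

noncomputable def FUp (v c t : ℝ) : ℝ :=
  Fhi t + (v * (t / 2 + Real.sin (2 * t) / 4) -
    v ^ 2 / 4 * (t ^ 3 / 6 + t ^ 2 * Real.sin (2 * t) / 4 + t * Real.cos (2 * t) / 4 -
      Real.sin (2 * t) / 8) +
    0.001 * (-(t * Real.cos (2 * t)) / 2 + Real.sin (2 * t) / 4) +
    c * (-(t ^ 2 * Real.cos (2 * t)) / 2 + t * Real.sin (2 * t) / 2 + Real.cos (2 * t) / 4))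

theorem hasDerivAt_FUp (v c t : ℝ) : HasDerivAt (FUp v c) (Up v c t) t :=
  (hasDerivAt_Fhi t).add (((((hasDerivAt_cs t).const_mul v).sub
    ((hasDerivAt_t2c t).const_mul (v ^ 2 / 4))).add ((hasDerivAt_ts t).const_mul 0.001)).add
    ((hasDerivAt_t2s t).const_mul c))

noncomputable def FLw (v a c t : ℝ) : ℝ :=
  (Fhi t - 1 / 638512875 * (t ^ 15 / 15)) + (v * (t / 2 + Real.sin (2 * t) / 4) -
    a * (t ^ 3 / 6 + t ^ 2 * Real.sin (2 * t) / 4 + t * Real.cos (2 * t) / 4 -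
      Real.sin (2 * t) / 8) -
    c * (-(t ^ 2 * Real.cos (2 * t)) / 2 + t * Real.sin (2 * t) / 2 + Real.cos (2 * t) / 4) -
    (0.001 ^ 2 * (t ^ 5 / 5) + 2 * 0.001 * c * (t ^ 6 / 6) + c ^ 2 * (t ^ 7 / 7)))

theorem hasDerivAt_FLw (v a c t : ℝ) : HasDerivAt (FLw v a c) (Lw v a c t) t := by
  have h15 := ((hasDerivAt_pow 15 t).div_const 15).const_mul (1 / 638512875 : ℝ)
  have h5 := ((hasDerivAt_pow 5 t).div_const 5).const_mul (0.001 ^ 2 : ℝ)
  have h6 := ((hasDerivAt_pow 6 t).div_const 6).const_mul (2 * 0.001 * c : ℝ)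
  have h7 := ((hasDerivAt_pow 7 t).div_const 7).const_mul (c ^ 2 : ℝ)
  refine (((hasDerivAt_Fhi t).sub h15).add (((((hasDerivAt_cs t).const_mul v).sub
    ((hasDerivAt_t2c t).const_mul a)).sub ((hasDerivAt_t2s t).const_mul c)).sub
    ((h5.add h6).add h7))).congr_deriv ?_
  unfold Lw slo
  norm_num
  ring

theorem continuous_Up (v c : ℝ) : Continuous (Up v c) := by
  unfold Up shi
  fun_prop

theorem continuous_Lw (v a c : ℝ) : Continuous (Lw v a c) := by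
  unfold Lw slo shi
  fun_prop

theorem integral_Up (v c : ℝ) : ∫ t in Ioc 0 (Real.pi / 2), Up v c t =
    Fhi (Real.pi / 2) + (v * (Real.pi / 4) - v ^ 2 / 4 * (Real.pi ^ 3 / 48 - Real.pi / 8) +
      0.001 * (Real.pi / 4) + c * (Real.pi ^ 2 / 8 - 1 / 2)) := by
  rw [← intervalIntegral.integral_of_le (by positivity),
    intervalIntegral.integral_eq_sub_of_hasDerivAt (fun t _ => hasDerivAt_FUp v c t)
      ((continuous_Up v c).intervalIntegrable _ _)]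
  have h : 2 * (Real.pi / 2) = Real.pi := by ring
  simp only [FUp, Fhi, h, Real.sin_pi, Real.cos_pi, mul_zero, Real.sin_zero, Real.cos_zero]
  ring

theorem integral_Lw (v a c : ℝ) : ∫ t in Ioc 0 (Real.pi / 2), Lw v a c t =
    (Fhi (Real.pi / 2) - 1 / 638512875 * ((Real.pi / 2) ^ 15 / 15)) +
      (v * (Real.pi / 4) - a * (Real.pi ^ 3 / 48 - Real.pi / 8) -
      c * (Real.pi ^ 2 / 8 - 1 / 2) -
      (0.001 ^ 2 * ((Real.pi / 2) ^ 5 / 5) + 2 * 0.001 * c * ((Real.pi / 2) ^ 6 / 6) +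
        c ^ 2 * ((Real.pi / 2) ^ 7 / 7))) := by
  rw [← intervalIntegral.integral_of_le (by positivity),
    intervalIntegral.integral_eq_sub_of_hasDerivAt (fun t _ => hasDerivAt_FLw v a c t)
      ((continuous_Lw v a c).intervalIntegrable _ _)]
  have h : 2 * (Real.pi / 2) = Real.pi := by ring
  simp only [FLw, Fhi, h, Real.sin_pi, Real.cos_pi, mul_zero, Real.sin_zero, Real.cos_zero]
  ring

/-! ### Numbers -/

theorem pi_pow (n : ℕ) : (1.57079632679 : ℝ) ^ n ≤ (Real.pi / 2) ^ n ∧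
    (Real.pi / 2) ^ n ≤ (1.57079632680 : ℝ) ^ n := by
  have h1 := Real.pi_gt_d20
  have h2 := Real.pi_lt_d20
  exact ⟨pow_le_pow_left₀ (by norm_num) (by linarith) n,
    pow_le_pow_left₀ (by positivity) (by linarith) n⟩

theorem Fhi_le : Fhi (Real.pi / 2) ≤ 1.215319 := by
  have h1 := (pi_pow 1).2
  have h3 := (pi_pow 3).1
  have h5 := (pi_pow 5).2
  have h7 := (pi_pow 7).1
  have h9 := (pi_pow 9).2
  have h11 := (pi_pow 11).1
  have h13 := (pi_pow 13).2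
  unfold Fhi
  norm_num at h1 h3 h5 h7 h9 h11 h13 ⊢
  linarith

theorem le_Fhi : 1.215316 ≤ Fhi (Real.pi / 2) - 1 / 638512875 * ((Real.pi / 2) ^ 15 / 15) := by
  have h1 := (pi_pow 1).1
  have h3 := (pi_pow 3).2
  have h5 := (pi_pow 5).1
  have h7 := (pi_pow 7).2
  have h9 := (pi_pow 9).1
  have h11 := (pi_pow 11).2
  have h13 := (pi_pow 13).1
  have h15 := (pi_pow 15).2
  unfold Fhi
  norm_num at h1 h3 h5 h7 h9 h11 h13 h15 ⊢
  linarith

theorem two_div_pi : 0.6366197 ≤ 2 / Real.pi ∧ 2 / Real.pi ≤ 0.6366198 := by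
  have h1 := Real.pi_gt_d20
  have h2 := Real.pi_lt_d20
  constructor
  · rw [le_div_iff₀ Real.pi_pos]
    nlinarith
  · rw [div_le_iff₀ Real.pi_pos]
    nlinarith

theorem pi_sq_bd : 9.8696 ≤ Real.pi ^ 2 ∧ Real.pi ^ 2 ≤ 9.86961 ∧ 31.00627 ≤ Real.pi ^ 3 ∧
    Real.pi ^ 3 ≤ 31.00628 := by
  have h1 := Real.pi_gt_d20
  have h2 := Real.pi_lt_d20
  have a1 : (3.14159265358 : ℝ) ^ 2 ≤ Real.pi ^ 2 :=
    pow_le_pow_left₀ (by norm_num) (by linarith) 2
  have a2 : Real.pi ^ 2 ≤ (3.14159265359 : ℝ) ^ 2 :=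
    pow_le_pow_left₀ (by positivity) (by linarith) 2
  have a3 : (3.14159265358 : ℝ) ^ 3 ≤ Real.pi ^ 3 :=
    pow_le_pow_left₀ (by norm_num) (by linarith) 3
  have a4 : Real.pi ^ 3 ≤ (3.14159265359 : ℝ) ^ 3 :=
    pow_le_pow_left₀ (by positivity) (by linarith) 3
  norm_num at a1 a2 a3 a4
  refine ⟨by linarith, by linarith, by linarith, by linarith⟩

theorem vv_bd (hN : GNum) {θ : ℝ} (h1 : 1 / 6 ≤ θ) (h2 : θ ≤ 1 / 4) :
    0.047 ≤ vv θ ∧ vv θ ≤ 0.1108 := by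
  obtain ⟨h3, h4, -⟩ := hN.1 θ h1 h2
  constructor <;> nlinarith

theorem final_lo {v z I : ℝ} (hv : 0.047 ≤ v) (hv2 : v ≤ 0.1108) (hz : z = 2.6 * v ^ 2 + 0.0035)
    (h : (Fhi (Real.pi / 2) - 1 / 638512875 * ((Real.pi / 2) ^ 15 / 15)) +
      (v * (Real.pi / 4) - (v ^ 2 / 4 + z / 12) * (Real.pi ^ 3 / 48 - Real.pi / 8) -
      z / 36 * (Real.pi ^ 2 / 8 - 1 / 2) -
      (0.001 ^ 2 * ((Real.pi / 2) ^ 5 / 5) + 2 * 0.001 * (z / 36) * ((Real.pi / 2) ^ 6 / 6) +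
        (z / 36) ^ 2 * ((Real.pi / 2) ^ 7 / 7))) ≤ I) :
    1.85176 + Real.pi / 4 * v - 0.1716 * v ^ 2 ≤ I + 2 / Real.pi := by
  have hF2 := le_Fhi
  obtain ⟨hp1, -⟩ := two_div_pi
  obtain ⟨q1, q2, q3, q4⟩ := pi_sq_bd
  have hpig := Real.pi_gt_d6
  have hpil := Real.pi_lt_d6
  have g2 : Real.pi ^ 3 / 48 - Real.pi / 8 ≤ 0.25327 := by linarith
  have g3 : Real.pi ^ 2 / 8 - 1 / 2 ≤ 0.73371 := by linarith
  have hv3 : v ^ 2 ≤ 0.01228 := by nlinarith
  have hz3 : z ≤ 0.03543 := by rw [hz]; linarith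
  have hz0 : 0 ≤ z := by rw [hz]; positivity
  have k5 := (pi_pow 5).2
  have k6 := (pi_pow 6).2
  have k7 := (pi_pow 7).2
  norm_num at k5 k6 k7
  have e1 : (v ^ 2 / 4 + z / 12) * (Real.pi ^ 3 / 48 - Real.pi / 8) ≤
      (v ^ 2 / 4 + z / 12) * 0.25327 := mul_le_mul_of_nonneg_left g2 (by positivity)
  have e2 : z / 36 * (Real.pi ^ 2 / 8 - 1 / 2) ≤ z / 36 * 0.73371 :=
    mul_le_mul_of_nonneg_left g3 (by positivity)
  have e3 : 2 * 0.001 * (z / 36) * ((Real.pi / 2) ^ 6 / 6) ≤ 0.00000494 := by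
    have h1 : (Real.pi / 2) ^ 6 / 6 ≤ 2.504 := by linarith
    have h2 : 2 * 0.001 * (z / 36) ≤ 0.00000197 := by linarith
    have h3 := mul_le_mul h2 h1 (by positivity) (by norm_num)
    refine h3.trans (by norm_num)
  have e4 : (z / 36) ^ 2 * ((Real.pi / 2) ^ 7 / 7) ≤ 0.00000328 := by
    have h1 : (Real.pi / 2) ^ 7 / 7 ≤ 3.372 := by linarith
    have h2 : (z / 36) ^ 2 ≤ 0.00000097 := by
      have h4 : z / 36 ≤ 0.0009842 := by linarith
      have h5 : 0 ≤ z / 36 := by positivity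
      nlinarith
    have h3 := mul_le_mul h2 h1 (by positivity) (by norm_num)
    refine h3.trans (by norm_num)
  have e5 : (0.001 : ℝ) ^ 2 * ((Real.pi / 2) ^ 5 / 5) ≤ 0.00000192 := by
    have : (Real.pi / 2) ^ 5 / 5 ≤ 1.9127 := by linarith
    have h3 := mul_le_mul_of_nonneg_left this (show (0 : ℝ) ≤ 0.001 ^ 2 by positivity)
    refine h3.trans (by norm_num)
  have e6 : (v ^ 2 / 4 + z / 12) * 0.25327 + z / 36 * 0.73371 ≤ 0.1716 * v ^ 2 + 0.000146 := by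
    rw [hz]
    nlinarith
  linarith

theorem final_hi {v z I : ℝ} (hv : 0.047 ≤ v) (hz : z = 2.6 * v ^ 2 + 0.0035)
    (h : I ≤ Fhi (Real.pi / 2) + (v * (Real.pi / 4) -
      v ^ 2 / 4 * (Real.pi ^ 3 / 48 - Real.pi / 8) +
      0.001 * (Real.pi / 4) + z / 36 * (Real.pi ^ 2 / 8 - 1 / 2))) :
    I + 2 / Real.pi ≤ 1.8528 + Real.pi / 4 * v - 0.0102 * v ^ 2 := by
  have hF1 := Fhi_le
  obtain ⟨-, hp2⟩ := two_div_pi
  obtain ⟨q1, q2, q3, q4⟩ := pi_sq_bd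
  have hpig := Real.pi_gt_d6
  have hpil := Real.pi_lt_d6
  have g1 : 0.25325 ≤ Real.pi ^ 3 / 48 - Real.pi / 8 := by linarith
  have g3 : Real.pi ^ 2 / 8 - 1 / 2 ≤ 0.73371 := by linarith
  have hz0 : 0 ≤ z := by rw [hz]; positivity
  have e1 : v ^ 2 / 4 * 0.25325 ≤ v ^ 2 / 4 * (Real.pi ^ 3 / 48 - Real.pi / 8) :=
    mul_le_mul_of_nonneg_left g1 (by positivity)
  have e2 : z / 36 * (Real.pi ^ 2 / 8 - 1 / 2) ≤ z / 36 * 0.73371 :=
    mul_le_mul_of_nonneg_left g3 (by positivity)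
  have e3 : z / 36 * 0.73371 ≤ v ^ 2 / 4 * 0.25325 - 0.0102 * v ^ 2 + 0.0000714 := by
    rw [hz]
    nlinarith [sq_nonneg v]
  linarith

theorem gE2 : GE2 := by
  intro hN θ φ hF
  obtain ⟨hv, hv2⟩ := vv_bd hN hF.lo hF.hi
  set v := vv θ with hvdef
  set z := zz θ with hzdef
  have hz2 : z = 2.6 * v ^ 2 + 0.0035 := rfl
  have hz0 : 0 ≤ z := by rw [hz2]; positivity
  have hpi := Real.pi_pos
  have hinf : IntegrableOn (fun t : ℝ => 1 / t ^ 2) (Ioi (Real.pi / 2)) ∧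
      ∫ t in Ioi (Real.pi / 2), 1 / t ^ 2 = 2 / Real.pi := by
    have h1 := integrableOn_Ioi_rpow_of_lt (show (-2 : ℝ) < -1 by norm_num)
      (show 0 < Real.pi / 2 by positivity)
    have h2 := integral_Ioi_rpow_of_lt (show (-2 : ℝ) < -1 by norm_num)
      (show 0 < Real.pi / 2 by positivity)
    have h3 : ∀ t ∈ Ioi (Real.pi / 2), t ^ (-2 : ℝ) = 1 / t ^ 2 := by
      intro t ht
      have ht0 : 0 < t := lt_trans (by positivity) (mem_Ioi.1 ht)
      rw [Real.rpow_neg ht0.le, one_div]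
      norm_num
    refine ⟨h1.congr_fun h3 measurableSet_Ioi, ?_⟩
    rw [← setIntegral_congr_fun measurableSet_Ioi h3, h2]
    norm_num
    rw [Real.rpow_neg (by positivity), Real.rpow_one, inv_div]
  have hφint : IntegrableOn (fun t => φ t ^ 2 / t ^ 2) (Ioi (Real.pi / 2)) := by
    refine Integrable.mono' hinf.1 ?_ ?_
    · exact ((hF.meas.pow_const 2).div (measurable_id.pow_const 2)).aestronglyMeasurable
    · refine Filter.Eventually.of_forall fun t => ?_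
      rw [Real.norm_eq_abs, abs_of_nonneg (by positivity)]
      have h1 := hF.abs_le t
      have h2 : φ t ^ 2 ≤ 1 := by
        rw [← sq_abs]
        exact pow_le_one₀ (abs_nonneg _) h1
      gcongr
  have hsub : Ioc (0 : ℝ) (Real.pi / 2) ⊆ Ioi 0 := fun t ht => ht.1
  have hsub2 : Ioi (Real.pi / 2) ⊆ Ioi (0 : ℝ) := fun t ht =>
    lt_trans (by positivity) (mem_Ioi.1 ht)
  have hint : IntegrableOn (fun t => (1 - φ t ^ 2) / t ^ 2) (Ioc 0 (Real.pi / 2)) :=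
    hF.int2.mono_set hsub
  have hint' : IntegrableOn (fun t => (1 - φ t ^ 2) / t ^ 2) (Ioi (Real.pi / 2)) :=
    hF.int2.mono_set hsub2
  have hsplit : (∫ t in Ioc (0 : ℝ) (Real.pi / 2), (1 - φ t ^ 2) / t ^ 2) +
      ∫ t in Ioi (Real.pi / 2), (1 - φ t ^ 2) / t ^ 2 = Real.pi / 2 * (2 : ℝ) ^ θ := by
    rw [← hF.eq2, ← setIntegral_union (Ioc_disjoint_Ioi le_rfl) measurableSet_Ioi hint hint',
      Ioc_union_Ioi_eq_Ioi (by positivity)]
  have htail : ∫ t in Ioi (Real.pi / 2), (1 - φ t ^ 2) / t ^ 2 = 2 / Real.pi - E2 φ := by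
    have h1 : ∀ t ∈ Ioi (Real.pi / 2), (1 - φ t ^ 2) / t ^ 2 = 1 / t ^ 2 - φ t ^ 2 / t ^ 2 :=
      fun t _ => by ring
    rw [setIntegral_congr_fun measurableSet_Ioi h1, integral_sub hinf.1 hφint, hinf.2]
    rfl
  have hE2 : E2 φ = (∫ t in Ioc (0 : ℝ) (Real.pi / 2), (1 - φ t ^ 2) / t ^ 2) + 2 / Real.pi -
      Real.pi / 2 * (2 : ℝ) ^ θ := by
    rw [htail] at hsplit
    linarith
  -- pointwise bounds
  have hpt : ∀ t ∈ Ioc (0 : ℝ) (Real.pi / 2),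
      Lw v (v ^ 2 / 4 + z / 12) (z / 36) t ≤ (1 - φ t ^ 2) / t ^ 2 ∧
      (1 - φ t ^ 2) / t ^ 2 ≤ Up v (z / 36) t := by
    intro t ht
    have ht0 : 0 < t := ht.1
    have ht1 := ht.2
    have hpi2 := pi_sq_bd.2.1
    have ht2 : t ^ 2 ≤ 2.4675 := by
      have : t ^ 2 ≤ (Real.pi / 2) ^ 2 := pow_le_pow_left₀ ht0.le ht1 2
      have h3 : (Real.pi / 2) ^ 2 = Real.pi ^ 2 / 4 := by ring
      rw [h3] at this
      linarith
    have hs : 0 ≤ Real.sin t := Real.sin_nonneg_of_nonneg_of_le_pi ht0.le (by linarith)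
    have hc : 0 ≤ Real.cos t := Real.cos_nonneg_of_neg_pi_div_two_le_of_le (by linarith) ht1
    obtain ⟨A, B, hAB, hA1, hA2, hA3, hB1, hB2⟩ := hF.ab t ht0.le
    obtain ⟨h1, h2⟩ := pointwise hs hc (Real.sin_le_one t) ht0 ht2 hv hv2 hz0 hz2.le hA1 hA2 hA3
      hB1 hB2
    have hsc := Real.sin_sq_add_cos_sq t
    have hs2 := Real.sin_two_mul t
    have hlo := le_sin_sq t ht0
    have hhi := sin_sq_le t ht0
    rw [← hAB] at h1 h2
    have ht4 : t ^ 4 = t ^ 2 * t ^ 2 := by ring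
    constructor
    · rw [le_div_iff₀ (by positivity)]
      rw [le_div_iff₀ (by positivity)] at hlo
      unfold Lw
      rw [hs2]
      have h3 : (0.001 * t ^ 2 + z / 36 * t ^ 3) ^ 2 * t ^ 2 =
          (0.001 * t ^ 3 + z * t ^ 4 / 36) ^ 2 := by ring
      nlinarith
    · rw [div_le_iff₀ (by positivity)]
      rw [div_le_iff₀ (by positivity)] at hhi
      unfold Up
      rw [hs2]
      nlinarith
  have hLint : IntegrableOn (Lw v (v ^ 2 / 4 + z / 12) (z / 36)) (Ioc 0 (Real.pi / 2)) :=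
    ((continuous_Lw _ _ _).integrableOn_Icc).mono_set Ioc_subset_Icc_self
  have hUint : IntegrableOn (Up v (z / 36)) (Ioc 0 (Real.pi / 2)) :=
    ((continuous_Up _ _).integrableOn_Icc).mono_set Ioc_subset_Icc_self
  have hl := setIntegral_mono_on hLint hint measurableSet_Ioc fun t ht => (hpt t ht).1
  have hu := setIntegral_mono_on hint hUint measurableSet_Ioc fun t ht => (hpt t ht).2
  rw [integral_Lw] at hl
  rw [integral_Up] at hu
  refine ⟨hφint, ?_, ?_⟩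
  · have := final_lo hv hv2 hz2 hl
    rw [hE2]
    unfold E2lo
    rw [← hvdef]
    linarith
  · have := final_hi hv hz2 hu
    rw [hE2]
    unfold E2hi
    rw [← hvdef]
    linarith

end Pool.Agent.Helper37.Pq
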